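import Pool.Agent.H17.UN.Tow

/-!
# MP_8b378c_ag: INV, the invariants of the Galois group
-/

set_option autoImplicit false
set_option linter.unusedSectionVars false
open Polynomial
open Pool.Agent.H17.UN
namespace Pool.Agent.H36.UN

section

variable {K L : Type} [Field K] [CharZero K] [Field L] [Algebra K L]
  {Kb Ω : IntermediateField K L}

theorem adj_top (h : Geo Kb Ω) : IntermediateField.adjoin Ω (Kb : Set L) = ⊤ := by
  apply IntermediateField.restrictScalars_injective K
  rw [IntermediateField.restrictScalars_adjoin]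
  exact h.sup

theorem int_spl (h : Geo Kb Ω) (x : L) (hx : x ∈ (Kb : Set L)) :
    IsIntegral Ω x ∧ ((minpoly Ω x).map (algebraMap Ω L)).Splits := by
  have hK : IsIntegral K x := (h.alg x hx).isIntegral
  have hcl : IsAlgClosed Kb := h.cls
  refine ⟨hK.tower_top, ?_⟩
  have h1 : ((minpoly K x).map (algebraMap K L)).Splits := by
    have h2 : (minpoly K x).map (algebraMap K L) =
        ((minpoly K x).map (algebraMap K Kb)).map (algebraMap Kb L) := by
      rw [Polynomial.map_map, ← IsScalarTower.algebraMap_eq]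
    rw [h2]
    exact (IsAlgClosed.splits _).map _
  refine h1.of_dvd ?_ ?_
  · exact (Polynomial.map_ne_zero_iff (algebraMap K L).injective).2 (minpoly.ne_zero hK)
  · have h3 := minpoly.dvd_map_of_isScalarTower K Ω x
    have h4 := Polynomial.map_dvd (algebraMap Ω L) h3
    rwa [Polynomial.map_map, ← IsScalarTower.algebraMap_eq] at h4

theorem galois (h : Geo Kb Ω) : IsGalois Ω L := by
  have hN : Normal Ω L := by
    rw [normal_iff]
    intro x
    have hx : x ∈ IntermediateField.adjoin Ω (Kb : Set L) := by
      rw [adj_top h]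
      exact IntermediateField.mem_top
    refine ⟨?_, IntermediateField.splits_of_mem_adjoin (L := L) (splits := int_spl h) (hx := hx)⟩
    have halg : Algebra.IsAlgebraic Ω (IntermediateField.adjoin Ω (Kb : Set L)) :=
      IntermediateField.isAlgebraic_adjoin fun y hy => (int_spl h y hy).1
    have h5 : IsAlgebraic Ω x :=
      (IntermediateField.isAlgebraic_iff (S := IntermediateField.adjoin Ω (Kb : Set L))
        (x := ⟨x, hx⟩)).1 (halg.isAlgebraic _)
    exact h5.isIntegral
  have hchar : CharZero Ω := charZero_of_injective_algebraMap (algebraMap K Ω).injective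
  have halg : Algebra.IsAlgebraic Ω L := hN.toIsAlgebraic
  exact ⟨⟩

end

theorem pf_INV : T_INV := by
  intro K L _ _ _ _ Kb Ω h x
  have hG := galois h
  have key : (∀ σ : L ≃ₐ[Ω] L, σ x = x) ↔ x ∈ Ω := by
    constructor
    · intro hx
      obtain ⟨a, ha⟩ := (InfiniteGalois.mem_range_algebraMap_iff_fixed x).2 hx
      rw [← ha]
      exact a.2
    · intro hx σ
      exact σ.commutes ⟨x, hx⟩
  refine ⟨key, fun hxK hx => ?_⟩
  have hxΩ := key.1 hx
  have hmem : x ∈ Ω ⊓ Kb := ⟨hxΩ, hxK⟩
  rw [h.inf, IntermediateField.mem_bot] at hmem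
  obtain ⟨a, ha⟩ := hmem
  exact ⟨a, ha.symm⟩

end Pool.Agent.H36.UN
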